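import Mathlib
import Pool.Agent.H64Z.Jac.Defs
import Pool.Agent.H64Z.Jac.Main

namespace Pool.Agent.Results.MP_3f5b22_an.ACubeRoot

open Pool.Agent.H64Z.Jac Polynomial

/-- There is a periodic Jacobi matrix on the 3-regular tree (two vertices, three edges) with a
Green's function whose Riemann surface has a point of ramification index at least 3. -/
theorem result :
    ∃ (G : Multigraph (Fin 2) (Fin 3)) (a : Fin 3 → ℝ) (b : Fin 2 → ℝ) (o : Fin 2),
      G.Connected ∧ (∀ x, G.degree x = 3) ∧ (∀ e, 0 < a e) ∧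
      ∃ H : Op (G.Cover o), IsJacobi G o a b H ∧
        ∃ P : ℂ[X][X], IsMinPoly (green H (Multigraph.Cover.root G o)) P ∧
          ∃ z₀ : ℂ, RamifiedOver P z₀ 3 :=
  Pool.Agent.H64Z.Jac.main

end Pool.Agent.Results.MP_3f5b22_an.ACubeRoot
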